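import Pool.Agent.Helper49.LK.GEO

/-! ADM: the curve is admissible. -/

set_option autoImplicit false

open MeasureTheory Filter Topology Set
open scoped ENNReal InnerProductSpace

namespace Pool.Agent.Helper49.LK

open Pool.Agent.Helper94.LK

/-- directions -/
noncomputable def dir (p L s : ℝ) : E2 :=
  if s < -L then !₂[4 / 5 * p + 3 / 5 * qq p, -(3 / 5 * p - 4 / 5 * qq p)]
  else if s < 0 then !₂[p, qq p]
  else if s < L then !₂[p, -qq p]
  else !₂[4 / 5 * p + 3 / 5 * qq p, 3 / 5 * p - 4 / 5 * qq p]

theorem vec_eq {a b c d e f : ℝ} (t s : ℝ) (h1 : a = c + (t - s) * e) (h2 : b = d + (t - s) * f) :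
    (!₂[a, b] : E2) = !₂[c, d] + (t - s) • !₂[e, f] := by
  ext i
  fin_cases i
  · simp [h1]
  · simp [h2]

theorem affine_of {p L : ℝ} {U : Set ℝ} {v : E2} {s : ℝ} (hU : U ∈ 𝓝 s)
    (h : ∀ t ∈ U, crv p L t = crv p L s + (t - s) • v) : HasDerivAt (crv p L) v s := by
  have h1 : HasDerivAt (fun t : ℝ => crv p L s + (t - s) • v) v s := by
    have := (((hasDerivAt_id s).sub_const s).smul_const v).const_add (crv p L s)
    simpa using this
  refine h1.congr_of_eventuallyEq ?_
  filter_upwards [hU] with t ht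
  exact h t ht

theorem cont_of {p L : ℝ} {U : Set ℝ} {v : E2} {s : ℝ} (hU : U ∈ 𝓝 s)
    (h : ∀ t ∈ U, dir p L t = v) : ContinuousAt (dir p L) s := by
  have h1 : dir p L =ᶠ[𝓝 s] fun _ => v := by
    filter_upwards [hU] with t ht
    exact h t ht
  exact h1.continuousAt

theorem norm_one_of {a b : ℝ} (h : a ^ 2 + b ^ 2 = 1) : ‖(!₂[a, b] : E2)‖ = 1 := by
  apply (sq_eq_sq₀ (norm_nonneg _) zero_le_one).1
  have := nsq a b 0 0
  have h0 : (!₂[(0 : ℝ), 0] : E2) = 0 := by
    ext i; fin_cases i <;> simp
  rw [h0, sub_zero] at this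
  rw [this]
  nlinarith

theorem adm_thm : S_ADM := by
  intro p L h0 h1 hL
  have hq := qq_sq h0 h1
  have hlimconst : ∀ (F : Filter ℝ) (v : E2), (∀ᶠ t in F, dir p L t = v) →
      ∃ l, Tendsto (dir p L) F (𝓝 l) := fun F v h =>
    ⟨v, tendsto_const_nhds.congr' (h.mono fun t ht => ht.symm)⟩
  -- the four pieces
  have d1 : ∀ t, t < -L → dir p L t =
      !₂[4 / 5 * p + 3 / 5 * qq p, -(3 / 5 * p - 4 / 5 * qq p)] := fun t ht => by
    unfold dir; rw [if_pos ht]
  have d2 : ∀ t, -L < t → t < 0 → dir p L t = !₂[p, qq p] := fun t ht ht' => by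
    unfold dir; rw [if_neg (by linarith), if_pos ht']
  have d3 : ∀ t, 0 < t → t < L → dir p L t = !₂[p, -qq p] := fun t ht ht' => by
    unfold dir; rw [if_neg (by linarith), if_neg (by linarith), if_pos ht']
  have d4 : ∀ t, L < t → dir p L t =
      !₂[4 / 5 * p + 3 / 5 * qq p, 3 / 5 * p - 4 / 5 * qq p] := fun t ht => by
    unfold dir; rw [if_neg (by linarith), if_neg (by linarith), if_neg (by linarith)]
  refine ⟨geo_conts p L h0 h1 hL, ⟨{-L, 0, L}, dir p L, ?_, ?_⟩, ?_, ?_, ?_⟩
  · intro s hs
    simp only [Finset.mem_insert, Finset.mem_singleton, not_or] at hs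
    obtain ⟨hs1, hs2, hs3⟩ := hs
    rcases lt_or_gt_of_ne hs1 with h | h
    · have hU : Iio (-L) ∈ 𝓝 s := Iio_mem_nhds h
      refine ⟨?_, ?_, cont_of hU d1⟩
      · rw [d1 s h]
        refine affine_of hU fun t ht => ?_
        have ht' : t < -L := ht
        rw [crv_eq, crv_eq, cl_lo hL ht'.le, cl_lo hL h.le, abs_of_nonpos (show t - -L ≤ 0 by
          linarith), abs_of_nonpos (show s - -L ≤ 0 by linarith)]
        refine vec_eq t s (by ring) (by ring)
      · rw [d1 s h]
        apply norm_one_of
        nlinarith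
    rcases lt_or_gt_of_ne hs2 with h' | h'
    · have hU : Ioo (-L) 0 ∈ 𝓝 s := Ioo_mem_nhds h h'
      refine ⟨?_, ?_, cont_of hU fun t ht => d2 t ht.1 ht.2⟩
      · rw [d2 s h h']
        refine affine_of hU fun t ht => ?_
        rw [crv_eq, crv_eq, cl_mid ht.1.le (by linarith [ht.2]), cl_mid h.le (by linarith),
          abs_of_neg ht.2, abs_of_neg h', sub_self, sub_self]
        refine vec_eq t s (by ring) (by ring)
      · rw [d2 s h h']
        apply norm_one_of
        nlinarith
    rcases lt_or_gt_of_ne hs3 with h'' | h''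
    · have hU : Ioo 0 L ∈ 𝓝 s := Ioo_mem_nhds h' h''
      refine ⟨?_, ?_, cont_of hU fun t ht => d3 t ht.1 ht.2⟩
      · rw [d3 s h' h'']
        refine affine_of hU fun t ht => ?_
        rw [crv_eq, crv_eq, cl_mid (by linarith [ht.1]) ht.2.le, cl_mid (by linarith) h''.le,
          abs_of_pos ht.1, abs_of_pos h', sub_self, sub_self]
        refine vec_eq t s (by ring) (by ring)
      · rw [d3 s h' h'']
        apply norm_one_of
        nlinarith
    · have hU : Ioi L ∈ 𝓝 s := Ioi_mem_nhds h''
      refine ⟨?_, ?_, cont_of hU fun t ht => d4 t ht⟩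
      · rw [d4 s h'']
        refine affine_of hU fun t ht => ?_
        have ht' : L < t := ht
        rw [crv_eq, crv_eq, cl_hi hL ht'.le, cl_hi hL h''.le, abs_of_nonneg (show 0 ≤ t - L by
          linarith), abs_of_nonneg (show 0 ≤ s - L by linarith)]
        refine vec_eq t s (by ring) (by ring)
      · rw [d4 s h'']
        apply norm_one_of
        nlinarith
  · intro s hs
    simp only [Finset.mem_insert, Finset.mem_singleton] at hs
    rcases hs with rfl | rfl | rfl
    · constructor
      · refine hlimconst _ !₂[4 / 5 * p + 3 / 5 * qq p, -(3 / 5 * p - 4 / 5 * qq p)] ?_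
        filter_upwards [self_mem_nhdsWithin] with t ht
        exact d1 t ht
      · refine hlimconst _ !₂[p, qq p] ?_
        filter_upwards [Ioo_mem_nhdsGT (show -L < 0 by linarith)] with t ht
        exact d2 t ht.1 ht.2
    · constructor
      · refine hlimconst _ !₂[p, qq p] ?_
        filter_upwards [Ioo_mem_nhdsLT (show -L < 0 by linarith)] with t ht
        exact d2 t ht.1 ht.2
      · refine hlimconst _ !₂[p, -qq p] ?_
        filter_upwards [Ioo_mem_nhdsGT hL] with t ht
        exact d3 t ht.1 ht.2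
    · constructor
      · refine hlimconst _ !₂[p, -qq p] ?_
        filter_upwards [Ioo_mem_nhdsLT hL] with t ht
        exact d3 t ht.1 ht.2
      · refine hlimconst _ !₂[4 / 5 * p + 3 / 5 * qq p, 3 / 5 * p - 4 / 5 * qq p] ?_
        filter_upwards [self_mem_nhdsWithin] with t ht
        exact d4 t ht
  · exact ⟨4 / 5 * p, by positivity, by linarith, fun s s' => geo_low p L s s' h0 h1 hL⟩
  · refine ⟨√(1 + 9 * L ^ 2), 1, 1 / 2, by positivity, by norm_num, by norm_num, by norm_num, ?_⟩
    intro s s' hne hs' hr1 hr2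
    have hpow : |s + s'| ^ (2 * (1 : ℝ)) = (s + s') ^ 2 := by
      rw [mul_one, Real.rpow_two, sq_abs]
    rw [hpow]
    have hpos : 0 < 1 + (s + s') ^ 2 := by positivity
    have habs : 0 < |s - s'| := abs_pos.2 (sub_ne_zero.2 hne)
    have hr2' : s / s' < 2 := by
      have : ((1 : ℝ) / 2)⁻¹ = 2 := by norm_num
      rwa [this] at hr2
    -- same sign
    have hprod : 0 < s * s' := by
      have h3 : 0 < s / s' := by linarith
      have h4 : s * s' = (s / s') * s' ^ 2 := by field_simp
      rw [h4]
      have : 0 < s' ^ 2 := by positivity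
      positivity
    have hR : 0 ≤ √(1 + 9 * L ^ 2) * (1 + (s + s') ^ 2) ^ (-(1 / 2) : ℝ) := by positivity
    have hrat : |s| < 2 * |s'| ∧ |s'| < 2 * |s| := by
      have h5 : |s| = (s / s') * |s'| := by
        have h6 : 0 < s / s' := by linarith
        calc |s| = |s / s' * s'| := by congr 1; field_simp
          _ = (s / s') * |s'| := by rw [abs_mul, abs_of_pos h6]
      have h7 : 0 < |s'| := abs_pos.2 hs'
      constructor
      · rw [h5]; nlinarith
      · rw [h5]; nlinarith
    by_cases hfar : L ≤ |s| ∧ L ≤ |s'|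
    · -- same ray
      have hdist : ‖crv p L s - crv p L s'‖ = |s - s'| := by
        rcases lt_or_gt_of_ne (show s ≠ 0 from fun h => by rw [h] at hprod; simp at hprod) with
          hs | hs
        · have hs'' : s' < 0 := by
            by_contra hcon
            push Not at hcon
            nlinarith
          rw [abs_of_neg hs, abs_of_neg hs''] at hfar
          have := geo_arm2 p L (-s) (-s') h0 h1 hL hfar.1 hfar.2
          rw [geo_refl p L s s' h0 h1 hL] at this
          rw [this, show -s - -s' = -(s - s') by ring, abs_neg]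
        · have hs'' : 0 < s' := by
            by_contra hcon
            push Not at hcon
            nlinarith
          rw [abs_of_pos hs, abs_of_pos hs''] at hfar
          exact geo_arm2 p L s s' h0 h1 hL hfar.1 hfar.2
      rw [hdist, div_self habs.ne', sub_self]
      exact hR
    · have hsmall : |s + s'| ≤ 3 * L := by
        have h8 := abs_add_le s s'
        rw [not_and_or, not_le, not_le] at hfar
        rcases hfar with h | h <;> linarith [hrat.1, hrat.2]
      have h9 : 1 - ‖crv p L s - crv p L s'‖ / |s - s'| ≤ 1 := by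
        have : 0 ≤ ‖crv p L s - crv p L s'‖ / |s - s'| := by positivity
        linarith
      refine h9.trans ?_
      rw [Real.rpow_neg hpos.le, ← Real.sqrt_eq_rpow, ← div_eq_mul_inv,
        one_le_div (Real.sqrt_pos.2 hpos)]
      apply Real.sqrt_le_sqrt
      have h10 : (s + s') ^ 2 ≤ (3 * L) ^ 2 := by
        rw [← sq_abs (s + s')]
        exact pow_le_pow_left₀ (abs_nonneg _) hsmall 2
      nlinarith
  · refine ⟨0, 2 * L, ?_⟩
    apply (sq_lt_sq₀ (norm_nonneg _) (abs_nonneg _)).1
    rw [geo_corner p L 0 (2 * L) h0 h1 hL le_rfl hL.le (by linarith), sq_abs]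
    nlinarith

end Pool.Agent.Helper49.LK
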