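import Pool.Agent.Helper94.LK.Spec

/-! GEO: elementary geometry of the curves. -/

set_option autoImplicit false

open MeasureTheory Filter Topology Set
open scoped ENNReal InnerProductSpace

namespace Pool.Agent.Helper49.LK

open Pool.Agent.Helper94.LK

theorem nsq (a b c d : ℝ) : ‖(!₂[a, b] : E2) - !₂[c, d]‖ ^ 2 = (a - c) ^ 2 + (b - d) ^ 2 := by
  rw [EuclideanSpace.norm_sq_eq, Fin.sum_univ_two]
  simp

theorem cl_hi {L s : ℝ} (hL : 0 < L) (h : L ≤ s) : cl L s = L := by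
  unfold cl; rw [min_eq_left h, max_eq_right (by linarith)]

theorem cl_lo {L s : ℝ} (hL : 0 < L) (h : s ≤ -L) : cl L s = -L := by
  unfold cl; rw [min_eq_right (by linarith), max_eq_left h]

theorem cl_mid {L s : ℝ} (h1 : -L ≤ s) (h2 : s ≤ L) : cl L s = s := by
  unfold cl; rw [min_eq_right h2, max_eq_right h1]

theorem cl_neg {L : ℝ} (hL : 0 < L) (s : ℝ) : cl L (-s) = -cl L s := by
  rcases le_total s (-L) with h | h
  · rw [cl_lo hL h, cl_hi hL (by linarith)]; ring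
  · rcases le_total s L with h' | h'
    · rw [cl_mid h h', cl_mid (by linarith) (by linarith)]
    · rw [cl_hi hL h', cl_lo hL (by linarith)]

theorem cl_mono {L s s' : ℝ} (h : s ≤ s') : cl L s ≤ cl L s' := by
  unfold cl
  exact max_le_max le_rfl (min_le_min le_rfl h)

theorem res_mono {L s s' : ℝ} (hL : 0 < L) (h : s ≤ s') : s - cl L s ≤ s' - cl L s' := by
  rcases le_total s (-L) with h1 | h1
  · rw [cl_lo hL h1]
    rcases le_total s' (-L) with h2 | h2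
    · rw [cl_lo hL h2]; linarith
    · rcases le_total s' L with h3 | h3
      · rw [cl_mid h2 h3]; linarith
      · rw [cl_hi hL h3]; linarith
  · rcases le_total s L with h2 | h2
    · rw [cl_mid h1 h2]
      rcases le_total s' L with h3 | h3
      · rw [cl_mid (by linarith) h3]; linarith
      · rw [cl_hi hL h3]; linarith
    · rw [cl_hi hL h2, cl_hi hL (by linarith)]; linarith

theorem cl_nonneg {L s : ℝ} (hL : 0 < L) (hs : 0 ≤ s) : 0 ≤ cl L s := by
  have := cl_mono (L := L) hs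
  rwa [cl_mid (by linarith) hL.le] at this

theorem res_nonneg {L s : ℝ} (hL : 0 < L) (hs : 0 ≤ s) : 0 ≤ s - cl L s := by
  have := res_mono hL hs
  rwa [cl_mid (by linarith) hL.le, sub_self] at this

theorem prod_nonneg {L : ℝ} (hL : 0 < L) (s s' : ℝ) :
    0 ≤ (cl L s - cl L s') * ((s - cl L s) - (s' - cl L s')) := by
  rcases le_total s s' with h | h
  · exact mul_nonneg_of_nonpos_of_nonpos (sub_nonpos.2 (cl_mono h)) (sub_nonpos.2 (res_mono hL h))
  · exact mul_nonneg (sub_nonneg.2 (cl_mono h)) (sub_nonneg.2 (res_mono hL h))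

/-- the sine -/
noncomputable def qq (p : ℝ) : ℝ := √(1 - p ^ 2)

theorem qq_nonneg (p : ℝ) : 0 ≤ qq p := Real.sqrt_nonneg _

theorem qq_sq {p : ℝ} (h0 : 0 < p) (h1 : p ≤ 1) : qq p ^ 2 = 1 - p ^ 2 := by
  unfold qq
  rw [Real.sq_sqrt]
  nlinarith

theorem crv_eq (p L s : ℝ) : crv p L s = !₂[p * cl L s + (4 / 5 * p + 3 / 5 * qq p) *
    (s - cl L s), -qq p * |cl L s| + (3 / 5 * p - 4 / 5 * qq p) * |s - cl L s|] := rfl

/-- coordinates -/
noncomputable def cx (p L s : ℝ) : ℝ := p * cl L s + (4 / 5 * p + 3 / 5 * qq p) * (s - cl L s)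

noncomputable def cy (p L s : ℝ) : ℝ :=
  -qq p * |cl L s| + (3 / 5 * p - 4 / 5 * qq p) * |s - cl L s|

theorem crv_sq (p L s s' : ℝ) : ‖crv p L s - crv p L s'‖ ^ 2 =
    (cx p L s - cx p L s') ^ 2 + (cy p L s - cy p L s') ^ 2 := by
  rw [crv_eq, crv_eq, nsq]; rfl

theorem cx_neg {p L : ℝ} (hL : 0 < L) (s : ℝ) : cx p L (-s) = -cx p L s := by
  unfold cx; rw [cl_neg hL]; ring

theorem cy_neg {p L : ℝ} (hL : 0 < L) (s : ℝ) : cy p L (-s) = cy p L s := by
  unfold cy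
  rw [cl_neg hL, abs_neg, show -s - -cl L s = -(s - cl L s) by ring, abs_neg]

theorem crv_sq_pos {p L s s' : ℝ} (h0 : 0 < p) (h1 : p ≤ 1) (hL : 0 < L) (hs : 0 ≤ s)
    (hs' : 0 ≤ s') : ‖crv p L s - crv p L s'‖ ^ 2 =
      (cl L s - cl L s') ^ 2 + ((s - cl L s) - (s' - cl L s')) ^ 2 +
        8 / 5 * ((cl L s - cl L s') * ((s - cl L s) - (s' - cl L s'))) := by
  rw [crv_sq]
  unfold cx cy
  rw [abs_of_nonneg (cl_nonneg hL hs), abs_of_nonneg (cl_nonneg hL hs'),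
    abs_of_nonneg (res_nonneg hL hs), abs_of_nonneg (res_nonneg hL hs')]
  have hq := qq_sq h0 h1
  set c := cl L s
  set c' := cl L s'
  set q := qq p
  have : (p * c + (4 / 5 * p + 3 / 5 * q) * (s - c) -
      (p * c' + (4 / 5 * p + 3 / 5 * q) * (s' - c'))) ^ 2 +
      (-q * c + (3 / 5 * p - 4 / 5 * q) * (s - c) -
      (-q * c' + (3 / 5 * p - 4 / 5 * q) * (s' - c'))) ^ 2 = (p ^ 2 + q ^ 2) *
      ((c - c') ^ 2 + ((s - c) - (s' - c')) ^ 2 + 8 / 5 * ((c - c') * ((s - c) - (s' - c')))) := by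
    ring
  rw [this, hq]
  ring

theorem le_sq {x y : ℝ} (hx : 0 ≤ x) (hy : 0 ≤ y) (h : x ^ 2 ≤ y ^ 2) : x ≤ y :=
  (sq_le_sq₀ hx hy).1 h

theorem geo_lip_pos {p L s s' : ℝ} (h0 : 0 < p) (h1 : p ≤ 1) (hL : 0 < L) (hs : 0 ≤ s)
    (hs' : 0 ≤ s') : ‖crv p L s - crv p L s'‖ ≤ |s - s'| := by
  apply le_sq (norm_nonneg _) (abs_nonneg _)
  rw [crv_sq_pos h0 h1 hL hs hs', sq_abs]
  have := prod_nonneg hL s s'
  nlinarith

theorem geo_refl (p L s s' : ℝ) (_h0 : 0 < p) (_h1 : p ≤ 1) (hL : 0 < L) :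
    ‖crv p L (-s) - crv p L (-s')‖ = ‖crv p L s - crv p L s'‖ := by
  apply (sq_eq_sq₀ (norm_nonneg _) (norm_nonneg _)).1
  rw [crv_sq, crv_sq, cx_neg hL, cx_neg hL, cy_neg hL, cy_neg hL]
  ring

theorem geo_lip (p L s s' : ℝ) (h0 : 0 < p) (h1 : p ≤ 1) (hL : 0 < L) :
    ‖crv p L s - crv p L s'‖ ≤ |s - s'| := by
  have hneg : ∀ s s' : ℝ, s ≤ 0 → s' ≤ 0 → ‖crv p L s - crv p L s'‖ ≤ |s - s'| := by
    intro s s' hs hs'
    have := geo_lip_pos h0 h1 hL (s := -s) (s' := -s') (by linarith) (by linarith)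
    rw [geo_refl p L s s' h0 h1 hL] at this
    rwa [show -s - -s' = -(s - s') by ring, abs_neg] at this
  have hmix : ∀ s s' : ℝ, 0 ≤ s → s' ≤ 0 → ‖crv p L s - crv p L s'‖ ≤ |s - s'| := by
    intro s s' hs hs'
    have e1 := geo_lip_pos h0 h1 hL hs le_rfl
    have e2 := hneg 0 s' le_rfl hs'
    calc ‖crv p L s - crv p L s'‖ ≤ ‖crv p L s - crv p L 0‖ + ‖crv p L 0 - crv p L s'‖ :=
          norm_sub_le_norm_sub_add_norm_sub _ _ _
      _ ≤ |s - 0| + |0 - s'| := add_le_add e1 e2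
      _ = |s - s'| := by
        rw [sub_zero, zero_sub, abs_neg, abs_of_nonneg hs, abs_of_nonpos hs',
          abs_of_nonneg (by linarith)]
        ring
  rcases le_total 0 s with hs | hs
  · rcases le_total 0 s' with hs' | hs'
    · exact geo_lip_pos h0 h1 hL hs hs'
    · exact hmix s s' hs hs'
  · rcases le_total 0 s' with hs' | hs'
    · rw [norm_sub_rev, abs_sub_comm]; exact hmix s' s hs' hs
    · exact hneg s s' hs hs'

theorem cx_mono {p L s s' : ℝ} (h0 : 0 < p) (hL : 0 < L) (h : s' ≤ s) :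
    4 / 5 * p * (s - s') ≤ cx p L s - cx p L s' := by
  unfold cx
  have h1 := cl_mono (L := L) h
  have h2 := res_mono hL h
  have h3 := qq_nonneg p
  nlinarith [mul_nonneg h3 (sub_nonneg.2 h2), mul_nonneg h0.le (sub_nonneg.2 h1),
    mul_nonneg h0.le (sub_nonneg.2 h2)]

theorem geo_low (p L s s' : ℝ) (h0 : 0 < p) (_h1 : p ≤ 1) (hL : 0 < L) :
    4 / 5 * p * |s - s'| ≤ ‖crv p L s - crv p L s'‖ := by
  have key : ∀ s s' : ℝ, s' ≤ s → 4 / 5 * p * |s - s'| ≤ ‖crv p L s - crv p L s'‖ := by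
    intro s s' h
    rw [abs_of_nonneg (sub_nonneg.2 h)]
    have e1 := cx_mono h0 hL h
    have e0 : 0 ≤ 4 / 5 * p * (s - s') := by
      have := sub_nonneg.2 h
      positivity
    apply le_sq e0 (norm_nonneg _)
    rw [crv_sq]
    have : (4 / 5 * p * (s - s')) ^ 2 ≤ (cx p L s - cx p L s') ^ 2 := pow_le_pow_left₀ e0 e1 2
    nlinarith [sq_nonneg (cy p L s - cy p L s')]
  rcases le_total s' s with h | h
  · exact key s s' h
  · rw [norm_sub_rev, abs_sub_comm]; exact key s' s h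

theorem geo_same (p L s s' : ℝ) (h0 : 0 < p) (h1 : p ≤ 1) (hL : 0 < L) (hs : 0 ≤ s)
    (hs' : 0 ≤ s') : 9 / 10 * (s - s') ^ 2 ≤ ‖crv p L s - crv p L s'‖ ^ 2 := by
  rw [crv_sq_pos h0 h1 hL hs hs']
  nlinarith [sq_nonneg ((cl L s - cl L s') - ((s - cl L s) - (s' - cl L s')))]

theorem cx_nonneg {p L s : ℝ} (h0 : 0 < p) (hL : 0 < L) (hs : 0 ≤ s) : 0 ≤ cx p L s := by
  unfold cx
  have h1 := cl_nonneg hL hs
  have h2 := res_nonneg hL hs
  have h3 := qq_nonneg p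
  positivity

theorem geo_cross (p L s s' : ℝ) (h0 : 0 < p) (_h1 : p ≤ 1) (hL : 0 < L) (hs : 0 ≤ s)
    (hs' : 0 ≤ s') : ‖crv p L s - crv p L s'‖ ≤ ‖crv p L s - crv p L (-s')‖ := by
  apply le_sq (norm_nonneg _) (norm_nonneg _)
  rw [crv_sq, crv_sq, cx_neg hL, cy_neg hL]
  have := mul_nonneg (cx_nonneg h0 hL hs) (cx_nonneg h0 hL hs')
  nlinarith

theorem geo_arm1 (p L s s' : ℝ) (h0 : 0 < p) (h1 : p ≤ 1) (hL : 0 < L) (hs : 0 ≤ s)
    (hsL : s ≤ L) (hs' : 0 ≤ s') (hsL' : s' ≤ L) : ‖crv p L s - crv p L s'‖ = |s - s'| := by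
  apply (sq_eq_sq₀ (norm_nonneg _) (abs_nonneg _)).1
  rw [crv_sq_pos h0 h1 hL hs hs', sq_abs, cl_mid (by linarith) hsL, cl_mid (by linarith) hsL']
  ring

theorem geo_arm2 (p L s s' : ℝ) (h0 : 0 < p) (h1 : p ≤ 1) (hL : 0 < L) (hs : L ≤ s)
    (hs' : L ≤ s') : ‖crv p L s - crv p L s'‖ = |s - s'| := by
  apply (sq_eq_sq₀ (norm_nonneg _) (abs_nonneg _)).1
  rw [crv_sq_pos h0 h1 hL (by linarith) (by linarith), sq_abs, cl_hi hL hs, cl_hi hL hs']
  ring

theorem geo_corner (p L s s' : ℝ) (h0 : 0 < p) (h1 : p ≤ 1) (hL : 0 < L) (hs : 0 ≤ s)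
    (hsL : s ≤ L) (hs' : L ≤ s') : ‖crv p L s - crv p L s'‖ ^ 2 =
      (L - s) ^ 2 + (s' - L) ^ 2 + 8 / 5 * (L - s) * (s' - L) := by
  rw [crv_sq_pos h0 h1 hL hs (by linarith), cl_mid (by linarith) hsL, cl_hi hL hs']
  ring

theorem geo_opp (p L s s' : ℝ) (h0 : 0 < p) (h1 : p ≤ 1) (hL : 0 < L) (hs : 0 ≤ s)
    (hsL : s ≤ L) (hs' : 0 ≤ s') (hsL' : s' ≤ L) :
    ‖crv p L s - crv p L (-s')‖ ^ 2 = (s - s') ^ 2 + 4 * s * s' * p ^ 2 := by
  rw [crv_sq, cx_neg hL, cy_neg hL]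
  unfold cx cy
  rw [cl_mid (by linarith) hsL, cl_mid (by linarith) hsL', sub_self, sub_self,
    abs_of_nonneg hs, abs_of_nonneg hs', abs_zero]
  have hq := qq_sq h0 h1
  have : (p * s + (4 / 5 * p + 3 / 5 * qq p) * 0 - -(p * s' + (4 / 5 * p + 3 / 5 * qq p) * 0)) ^ 2 +
      (-qq p * s + (3 / 5 * p - 4 / 5 * qq p) * 0 -
      (-qq p * s' + (3 / 5 * p - 4 / 5 * qq p) * 0)) ^ 2 =
      p ^ 2 * (s + s') ^ 2 + qq p ^ 2 * (s - s') ^ 2 := by ring
  rw [this, hq]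
  ring

theorem geo_contp (L s s' : ℝ) (_hL : 0 < L) :
    Continuous fun p : ℝ => ‖crv p L s - crv p L s'‖ := by
  have : (fun p : ℝ => ‖crv p L s - crv p L s'‖) = fun p =>
      √((cx p L s - cx p L s') ^ 2 + (cy p L s - cy p L s') ^ 2) := by
    funext p
    rw [← crv_sq, Real.sqrt_sq (norm_nonneg _)]
  rw [this]
  unfold cx cy qq
  fun_prop

theorem cont_of_lip {γ : ℝ → E2} (h : ∀ s s', ‖γ s - γ s'‖ ≤ |s - s'|) : Continuous γ := by
  have : LipschitzWith 1 γ := LipschitzWith.of_dist_le_mul fun s s' => by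
    rw [dist_eq_norm, Real.dist_eq, NNReal.coe_one, one_mul]; exact h s s'
  exact this.continuous

theorem geo_conts (p L : ℝ) (h0 : 0 < p) (h1 : p ≤ 1) (hL : 0 < L) : Continuous (crv p L) :=
  cont_of_lip fun s s' => geo_lip p L s s' h0 h1 hL

theorem qq_one : qq 1 = 0 := by unfold qq; simp

theorem geo_straight (L s s' : ℝ) (_hL : 0 < L) (hs : |s| ≤ L) (hs' : |s'| ≤ L) :
    ‖crv 1 L s - crv 1 L s'‖ = |s - s'| := by
  apply (sq_eq_sq₀ (norm_nonneg _) (abs_nonneg _)).1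
  have h1 := abs_le.1 hs
  have h2 := abs_le.1 hs'
  rw [crv_sq, sq_abs]
  unfold cx cy
  rw [cl_mid h1.1 h1.2, cl_mid h2.1 h2.2, qq_one]
  simp

theorem geo_bend (L s s' : ℝ) (hL : 0 < L) (hs : -L ≤ s) (hs' : -L ≤ s') :
    ‖crv 1 L s - crv 1 L s'‖ = ‖bnd (s - L) - bnd (s' - L)‖ := by
  have key : ∀ s : ℝ, -L ≤ s → cx 1 L s = L + (min (s - L) 0 + 4 / 5 * max (s - L) 0) ∧
      cy 1 L s = 3 / 5 * max (s - L) 0 := by
    intro s hs
    unfold cx cy
    rw [qq_one]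
    rcases le_total s L with h | h
    · rw [cl_mid hs h, min_eq_left (by linarith), max_eq_right (by linarith)]
      simp
    · rw [cl_hi hL h, min_eq_right (by linarith), max_eq_left (by linarith),
        abs_of_nonneg (sub_nonneg.2 h)]
      constructor <;> ring
  apply (sq_eq_sq₀ (norm_nonneg _) (norm_nonneg _)).1
  unfold bnd
  rw [crv_sq, nsq, (key s hs).1, (key s hs).2, (key s' hs').1, (key s' hs').2]
  ring

theorem bnd_sq (s s' : ℝ) : ‖bnd s - bnd s'‖ ^ 2 = (min s 0 - min s' 0) ^ 2 +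
    (max s 0 - max s' 0) ^ 2 + 8 / 5 * ((min s 0 - min s' 0) * (max s 0 - max s' 0)) := by
  unfold bnd
  rw [nsq]
  ring

theorem mm_add (s s' : ℝ) : (min s 0 - min s' 0) + (max s 0 - max s' 0) = s - s' := by
  have h1 := min_add_max s 0
  have h2 := min_add_max s' 0
  linarith

theorem mm_nonneg (s s' : ℝ) : 0 ≤ (min s 0 - min s' 0) * (max s 0 - max s' 0) := by
  rcases le_total s s' with h | h
  · exact mul_nonneg_of_nonpos_of_nonpos (sub_nonpos.2 (min_le_min h le_rfl))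
      (sub_nonpos.2 (max_le_max h le_rfl))
  · exact mul_nonneg (sub_nonneg.2 (min_le_min h le_rfl)) (sub_nonneg.2 (max_le_max h le_rfl))

theorem geo_blip (s s' : ℝ) : ‖bnd s - bnd s'‖ ≤ |s - s'| := by
  apply le_sq (norm_nonneg _) (abs_nonneg _)
  rw [bnd_sq, sq_abs, ← mm_add s s']
  nlinarith [mm_nonneg s s']

theorem geo_bcont : Continuous bnd := cont_of_lip geo_blip

theorem geo_blow (s s' : ℝ) : 9 / 10 * (s - s') ^ 2 ≤ ‖bnd s - bnd s'‖ ^ 2 := by
  rw [bnd_sq, ← mm_add s s']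
  nlinarith [sq_nonneg ((min s 0 - min s' 0) - (max s 0 - max s' 0))]

theorem geo_bsame (s s' : ℝ) (h : 0 ≤ s * s') : ‖bnd s - bnd s'‖ = |s - s'| := by
  apply (sq_eq_sq₀ (norm_nonneg _) (abs_nonneg _)).1
  rw [bnd_sq, sq_abs]
  rcases le_total 0 s with hs | hs
  · rcases le_total 0 s' with hs' | hs'
    · rw [min_eq_right hs, min_eq_right hs', max_eq_left hs, max_eq_left hs']; ring
    · have h2 : s * s' = 0 := le_antisymm (mul_nonpos_of_nonneg_of_nonpos hs hs') h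
      rcases mul_eq_zero.1 h2 with h3 | h3
      · rw [h3, min_self, max_self, min_eq_left hs', max_eq_right hs']; ring
      · rw [h3, min_self, max_self, min_eq_right hs, max_eq_left hs]; ring
  · rcases le_total 0 s' with hs' | hs'
    · have h2 : s * s' = 0 := le_antisymm (mul_nonpos_of_nonpos_of_nonneg hs hs') h
      rcases mul_eq_zero.1 h2 with h3 | h3
      · rw [h3, min_self, max_self, min_eq_right hs', max_eq_left hs']; ring
      · rw [h3, min_self, max_self, min_eq_left hs, max_eq_right hs]; ring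
    · rw [min_eq_left hs, min_eq_left hs', max_eq_right hs, max_eq_right hs']; ring

theorem geo_bopp (s s' : ℝ) (h : s < 0) (h' : 0 < s') : ‖bnd s - bnd s'‖ < |s - s'| := by
  apply (sq_lt_sq₀ (norm_nonneg _) (abs_nonneg _)).1
  rw [bnd_sq, sq_abs, min_eq_left h.le, min_eq_right h'.le, max_eq_right h.le,
    max_eq_left h'.le]
  nlinarith [mul_pos (neg_pos.2 h) h']

theorem geo_thm : S_GEO where
  lip := geo_lip
  low := geo_low
  same := geo_same
  refl := geo_refl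
  cross := geo_cross
  arm1 := geo_arm1
  arm2 := geo_arm2
  corner := geo_corner
  opp := geo_opp
  straight := geo_straight
  bend := geo_bend
  contp := geo_contp
  conts := geo_conts
  bcont := geo_bcont
  blip := geo_blip
  blow := geo_blow
  bsame := geo_bsame
  bopp := geo_bopp

end Pool.Agent.Helper49.LK
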