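import Pool.Agent.Helper94.LK.Spec

/-! HSB, OP: kernel forms. -/

set_option autoImplicit false

open MeasureTheory Filter Topology Set
open scoped ENNReal InnerProductSpace

namespace Pool.Agent.Helper49.LK

open Pool.Agent.Helper94.LK

theorem memLp_mul {f h : ℝ → ℝ} (hf : MemLp f 2 volume) (hh : MemLp h 2 volume) :
    MemLp (fun z : ℝ × ℝ => f z.1 * h z.2) 2 volume := by
  have h1 : AEStronglyMeasurable (fun z : ℝ × ℝ => f z.1 * h z.2) volume :=
    hf.1.comp_fst.mul hh.1.comp_snd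
  rw [memLp_two_iff_integrable_sq h1]
  have h2 := ((memLp_two_iff_integrable_sq hf.1).1 hf).mul_prod
    ((memLp_two_iff_integrable_sq hh.1).1 hh)
  refine (Integrable.congr h2 (Eventually.of_forall fun z => ?_))
  simp only
  ring

theorem cs {E F : ℝ × ℝ → ℝ} (hE : MemLp E 2 volume) (hF : MemLp F 2 volume) :
    |∫ z, E z * F z| ≤ √(∫ z, E z ^ 2) * √(∫ z, F z ^ 2) := by
  have h1 : |∫ z, E z * F z| ≤ ∫ z, |E z| * |F z| := by
    refine (abs_integral_le_integral_abs).trans (le_of_eq ?_)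
    refine integral_congr_ae (Eventually.of_forall fun z => ?_)
    exact abs_mul _ _
  have h2 := integral_mul_le_Lp_mul_Lq_of_nonneg (μ := (volume : Measure (ℝ × ℝ)))
    (p := 2) (q := 2) (Real.HolderConjugate.two_two) (f := fun z => |E z|) (g := fun z => |F z|)
    (Eventually.of_forall fun z => abs_nonneg _) (Eventually.of_forall fun z => abs_nonneg _)
    (by simpa using hE.norm) (by simpa using hF.norm)
  refine h1.trans (h2.trans (le_of_eq ?_))
  rw [Real.sqrt_eq_rpow, Real.sqrt_eq_rpow]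
  simp only [Real.rpow_two, sq_abs]

theorem hsb_thm : S_HSB := by
  intro E hE hE2
  have hE' : MemLp (fun z : ℝ × ℝ => E z.1 z.2) 2 volume :=
    (memLp_two_iff_integrable_sq hE.aestronglyMeasurable).2 hE2
  refine ⟨Real.sqrt_nonneg _, hE, fun f h hf hh => ?_, fun f h hf hh => ?_⟩
  · exact MemLp.integrable_mul hE' (memLp_mul hf hh)
  · have h1 := cs hE' (memLp_mul hf hh)
    unfold Bil
    refine h1.trans (le_of_eq ?_)
    rw [mul_assoc]
    congr 1
    have h2 : ∫ z : ℝ × ℝ, (f z.1 * h z.2) ^ 2 = N f * N h := by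
      unfold N
      rw [← integral_prod_mul (μ := (volume : Measure ℝ)) (ν := (volume : Measure ℝ))
        (fun s => f s ^ 2) (fun s => h s ^ 2)]
      refine integral_congr_ae (Eventually.of_forall fun z => ?_)
      simp only
      ring
    rw [h2, Real.sqrt_mul]
    exact integral_nonneg fun s => sq_nonneg _

theorem bil_congr (G : ℝ → ℝ → ℝ) {f f' h h' : ℝ → ℝ} (hf : f =ᵐ[volume] f')
    (hh : h =ᵐ[volume] h') : Bil G f h = Bil G f' h' := by
  unfold Bil
  refine integral_congr_ae ?_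
  have h1 : ∀ᵐ z : ℝ × ℝ, f z.1 = f' z.1 := Measure.quasiMeasurePreserving_fst.ae hf
  have h2 : ∀ᵐ z : ℝ × ℝ, h z.2 = h' z.2 := Measure.quasiMeasurePreserving_snd.ae hh
  filter_upwards [h1, h2] with z e1 e2
  rw [e1, e2]

theorem bil_add_left {G : ℝ → ℝ → ℝ} {M : ℝ} (hG : KerBdd G M) {f g h : ℝ → ℝ}
    (hf : MemLp f 2 volume) (hg : MemLp g 2 volume) (hh : MemLp h 2 volume) :
    Bil G (fun s => f s + g s) h = Bil G f h + Bil G g h := by
  unfold Bil
  rw [← integral_add (hG.int f h hf hh) (hG.int g h hg hh)]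
  refine integral_congr_ae (Eventually.of_forall fun z => ?_)
  simp only; ring

theorem bil_add_right {G : ℝ → ℝ → ℝ} {M : ℝ} (hG : KerBdd G M) {f g h : ℝ → ℝ}
    (hf : MemLp f 2 volume) (hg : MemLp g 2 volume) (hh : MemLp h 2 volume) :
    Bil G h (fun s => f s + g s) = Bil G h f + Bil G h g := by
  unfold Bil
  rw [← integral_add (hG.int h f hh hf) (hG.int h g hh hg)]
  refine integral_congr_ae (Eventually.of_forall fun z => ?_)
  simp only; ring

theorem bil_smul_left (G : ℝ → ℝ → ℝ) (c : ℝ) (f h : ℝ → ℝ) :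
    Bil G (fun s => c * f s) h = c * Bil G f h := by
  unfold Bil
  rw [← integral_const_mul]
  refine integral_congr_ae (Eventually.of_forall fun z => ?_)
  simp only; ring

theorem bil_smul_right (G : ℝ → ℝ → ℝ) (c : ℝ) (f h : ℝ → ℝ) :
    Bil G h (fun s => c * f s) = c * Bil G h f := by
  unfold Bil
  rw [← integral_const_mul]
  refine integral_congr_ae (Eventually.of_forall fun z => ?_)
  simp only; ring

theorem sqrt_N (f : X) : √(N f) = ‖f‖ := by
  have h1 : ⟪f, f⟫_ℝ = N f := by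
    rw [L2.inner_def]
    unfold N
    refine integral_congr_ae (Eventually.of_forall fun s => ?_)
    simp only [real_inner_eq_re_inner, RCLike.inner_apply, conj_trivial, RCLike.re_to_real]
    ring
  rw [← h1, real_inner_self_eq_norm_sq, Real.sqrt_sq (norm_nonneg _)]

theorem op_thm : S_OP := by
  intro G M hG
  have hm : ∀ f : X, MemLp f 2 volume := fun f => Lp.memLp f
  have hadd : ∀ f g : X, ((f + g : X) : ℝ → ℝ) =ᵐ[volume] fun s => f s + g s := fun f g =>
    Lp.coeFn_add f g
  have hsmul : ∀ (c : ℝ) (f : X), ((c • f : X) : ℝ → ℝ) =ᵐ[volume] fun s => c * f s :=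
    fun c f => Lp.coeFn_smul c f
  set B : X →ₗ[ℝ] X →ₗ[ℝ] ℝ := LinearMap.mk₂ ℝ (fun f h : X => Bil G f h)
    (fun f g h => by
      rw [bil_congr G (hadd f g) (EventuallyEq.refl _ _), bil_add_left hG (hm f) (hm g) (hm h)])
    (fun c f h => by
      rw [bil_congr G (hsmul c f) (EventuallyEq.refl _ _), bil_smul_left, smul_eq_mul])
    (fun h f g => by
      rw [bil_congr G (EventuallyEq.refl _ _) (hadd f g), bil_add_right hG (hm f) (hm g) (hm h)])
    (fun c h f => by
      rw [bil_congr G (EventuallyEq.refl _ _) (hsmul c f), bil_smul_right, smul_eq_mul]) with hB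
  have hBb : ∀ f h : X, ‖B f h‖ ≤ M * ‖f‖ * ‖h‖ := by
    intro f h
    have := hG.bd f h (hm f) (hm h)
    rw [sqrt_N, sqrt_N] at this
    exact this
  set Bc : X →L[ℝ] X →L[ℝ] ℝ := B.mkContinuous₂ M hBb with hBc
  have hBcn : ‖Bc‖ ≤ M := B.mkContinuous₂_norm_le hG.hM hBb
  set Tl : X →ₗ[ℝ] X :=
    { toFun := fun f => (InnerProductSpace.toDual ℝ X).symm (Bc f)
      map_add' := fun f g => by rw [map_add, map_add]
      map_smul' := fun c f => by rw [map_smul, map_smulₛₗ]; simp } with hTl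
  have hTn : ∀ f, ‖Tl f‖ ≤ M * ‖f‖ := by
    intro f
    change ‖(InnerProductSpace.toDual ℝ X).symm (Bc f)‖ ≤ M * ‖f‖
    rw [LinearIsometryEquiv.norm_map]
    exact (Bc.le_opNorm f).trans (mul_le_mul_of_nonneg_right hBcn (norm_nonneg _))
  refine ⟨Tl.mkContinuous M hTn, Tl.mkContinuous_norm_le hG.hM hTn, fun f h => ?_⟩
  change ⟪(InnerProductSpace.toDual ℝ X).symm (Bc f), h⟫_ℝ = Bil G f h
  rw [InnerProductSpace.toDual_symm_apply]
  rfl

end Pool.Agent.Helper49.LK
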